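import Mathlib

/-!
# A pigeonhole lemma
-/

namespace Pool.Agent.X300.UB

theorem exists_good {ι : Type} [Fintype ι] (c γ h w : ι → ℤ) (m δ : ℕ)
    (hm : Fintype.card ι * δ < m) (hw : ∃ i, w i + (m : ℤ) - 1 < c i) :
    ∃ j : ℕ, j < m ∧ ∃ a : ℤ, (∃ i, w i + j < c i ∧ w i - γ i + j = a) ∧
      (∀ i, w i + j < c i → a ≤ w i - γ i + j) ∧ ∀ i, h i < a ∨ a + δ ≤ h i := by
  classical
  obtain ⟨i₀, hi₀⟩ := hw
  have key : ∀ j : Fin m, ∃ i, w i + (j : ℕ) < c i ∧
      ∀ i', w i' + (j : ℕ) < c i' → w i - γ i ≤ w i' - γ i' := by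
    intro j
    obtain ⟨i, hi, hmin⟩ := Finset.exists_min_image
      (Finset.univ.filter fun i => w i + ((j : ℕ) : ℤ) < c i) (fun i => w i - γ i)
      ⟨i₀, by
        rw [Finset.mem_filter]
        refine ⟨Finset.mem_univ _, ?_⟩
        have := j.2
        omega⟩
    rw [Finset.mem_filter] at hi
    exact ⟨i, hi.2, fun i' hi' => hmin i' (Finset.mem_filter.mpr ⟨Finset.mem_univ _, hi'⟩)⟩
  choose s hs hsmin using key
  by_contra hcon
  push Not at hcon
  have hbad : ∀ j : Fin m, ∃ i, w (s j) - γ (s j) + (j : ℕ) ≤ h i ∧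
      h i < w (s j) - γ (s j) + (j : ℕ) + δ := by
    intro j
    obtain ⟨i, h1, h2⟩ := hcon j j.2 (w (s j) - γ (s j) + (j : ℕ)) ⟨s j, hs j, rfl⟩
      (fun i' hi' => by
        have := hsmin j i' hi'
        omega)
    exact ⟨i, h1, h2⟩
  choose b hb₁ hb₂ using hbad
  let f : Fin m → ι × Fin δ := fun j =>
    (b j, ⟨(h (b j) - (w (s j) - γ (s j) + (j : ℕ))).toNat, by
      have h1 := hb₁ j
      have h2 := hb₂ j
      omega⟩)
  have hmono : ∀ j j' : Fin m, (j : ℕ) < j' →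
      w (s j) - γ (s j) + (j : ℕ) < w (s j') - γ (s j') + (j' : ℕ) := by
    intro j j' hjj
    have h1 := hs j'
    have h2 := hsmin j (s j') (by omega)
    omega
  have hf : Function.Injective f := by
    intro j j' hjj
    have h1 : b j = b j' := congrArg Prod.fst hjj
    have h2 : (h (b j) - (w (s j) - γ (s j) + (j : ℕ))).toNat =
        (h (b j') - (w (s j') - γ (s j') + (j' : ℕ))).toNat :=
      congrArg (fun x : ι × Fin δ => (x.2 : ℕ)) hjj
    have h3 := hb₁ j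
    have h4 := hb₁ j'
    rw [← h1] at h2 h4
    have h5 : w (s j) - γ (s j) + (j : ℕ) = w (s j') - γ (s j') + (j' : ℕ) := by omega
    rcases lt_trichotomy (j : ℕ) j' with h6 | h6 | h6
    · have := hmono j j' h6
      omega
    · exact Fin.ext h6
    · have := hmono j' j h6
      omega
  have hcard := Fintype.card_le_of_injective f hf
  rw [Fintype.card_fin, Fintype.card_prod, Fintype.card_fin] at hcard
  omega

/-- For odd `n` the number `-1` is a sum of two squares modulo `2 n`. -/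
theorem exists_sum_two_squares (n : ℕ) (hn : ¬ 2 ∣ n) :
    ∃ a b : ℕ, 2 * n ∣ a ^ 2 + b ^ 2 + 1 := by
  have hn0 : 0 < n := Nat.pos_of_ne_zero fun h => hn (h ▸ dvd_zero 2)
  have hco2 : Nat.Coprime 2 n := (Nat.Prime.coprime_iff_not_dvd Nat.prime_two).mpr hn
  have hco : Nat.Coprime n 4 := by
    have h1 : Nat.Coprime n (2 ^ 2) := Nat.Coprime.pow_right 2 hco2.symm
    exact h1
  obtain ⟨r, hr1, hr2⟩ := Nat.chineseRemainder hco (n - 1) 1
  have hr1' : n ∣ r + 1 := by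
    have h1 : r + 1 ≡ (n - 1) + 1 [MOD n] := hr1.add_right 1
    rw [Nat.sub_add_cancel hn0] at h1
    exact (Nat.modEq_zero_iff_dvd).mp (h1.trans (Nat.modEq_zero_iff_dvd.mpr dvd_rfl))
  have hrn : Nat.Coprime r n := by
    refine Nat.Coprime.symm (Nat.coprime_of_dvd fun k hk hkn hkr => ?_)
    have h1 : k ∣ r + 1 := hkn.trans hr1'
    have h2 : k ∣ 1 := (Nat.dvd_add_right hkr).mp h1
    exact hk.one_lt.ne' (Nat.dvd_one.mp h2)
  have hr4 : Nat.Coprime r 4 := by
    have h1 : r % 4 = 1 := hr2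
    have h2 : Nat.gcd r 4 = 1 := by
      rw [Nat.gcd_comm, Nat.gcd_rec, h1]
      rfl
    exact h2
  obtain ⟨q, -, hq, hqr⟩ := Nat.forall_exists_prime_gt_and_modEq 0 (q := n * 4) (a := r)
    (by omega) (Nat.Coprime.mul_right hrn hr4)
  have hq4 : q % 4 = 1 := by
    have h1 : q ≡ r [MOD 4] := hqr.of_mul_left n
    have h2 : q ≡ 1 [MOD 4] := h1.trans hr2
    exact h2
  have hqn : n ∣ q + 1 := by
    have h1 : q ≡ r [MOD n] := hqr.of_mul_right 4
    have h2 : q + 1 ≡ r + 1 [MOD n] := h1.add_right 1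
    exact (Nat.modEq_zero_iff_dvd).mp (h2.trans (Nat.modEq_zero_iff_dvd.mpr hr1'))
  have : Fact q.Prime := ⟨hq⟩
  obtain ⟨a, b, hab⟩ := Nat.Prime.sq_add_sq (p := q) (by omega)
  refine ⟨a, b, ?_⟩
  rw [hab]
  exact Nat.Coprime.mul_dvd_of_dvd_of_dvd hco2 (by omega) hqn

end Pool.Agent.X300.UB
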