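import Pool.Agent.X300.UB.Lat

/-!
# The middle lattice of a polarised Tate module
-/

namespace Pool.Agent.X300.UB

section

variable {p : ℕ} [Fact p.Prime]

theorem D.mul {k l : ℤ} {x y : ℚ_[p]} (hx : D k x) (hy : D l y) : D (k + l) (x * y) := by
  unfold D at *
  have hp : (0 : ℝ) < p := zero_lt_one.trans one_lt
  rw [norm_mul, neg_add, zpow_add₀ hp.ne']
  exact mul_le_mul hx hy (norm_nonneg _) (zpow_nonneg hp.le _)

theorem D_sum {k : ℤ} {ι : Type} (s : Finset ι) (f : ι → ℚ_[p]) (h : ∀ i ∈ s, D k (f i)) :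
    D k (∑ i ∈ s, f i) :=
  Finset.sum_induction f (D k) (fun _ _ => D.add) (D_zero k) h

theorem D_one : D 0 (1 : ℚ_[p]) := by
  unfold D
  rw [norm_one, neg_zero, zpow_zero]

end

open Classical in
/-- The vectors of the standard basis. -/
noncomputable def e (p : ℕ) [Fact p.Prime] {ι : Type} (i : ι) : ι → ℚ_[p] :=
  fun j => if i = j then 1 else 0

variable {p : ℕ} [Fact p.Prime]

theorem e_lat {ι : Type} (c : ι → ℤ) (i : ι) (k : ℤ) (hk : c i ≤ k) :
    Lat p c ((p : ℚ_[p]) ^ k • e p i) := by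
  intro j
  change D (c j) ((p : ℚ_[p]) ^ k * e p i j)
  rw [D_zpow_mul]
  unfold e
  split_ifs with h
  · subst h
    exact D_one.mono (by omega)
  · exact D_zero _

theorem apply_eq_sum {ι : Type} [Fintype ι] {M : Type} [AddCommGroup M] [Module ℚ_[p] M]
    (f : (ι → ℚ_[p]) →ₗ[ℚ_[p]] M) (x : ι → ℚ_[p]) : f x = ∑ i, x i • f (e p i) := by
  classical
  rw [LinearMap.pi_apply_eq_sum_univ f x]
  refine Finset.sum_congr rfl fun i _ => ?_
  congr 2

/-- The rational Tate module of a polarised abelian variety, with the Weil pairing, in coordinates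
with respect to a basis of the dual of the Tate module `T` which is adapted to `T`: the dual of `T`
consists of the rows with integral coordinates, and `T` of the rows whose `i`-th coordinate is
divisible by `p ^ (c i)`. -/
structure PolarisedTate (p : ℕ) [Fact p.Prime] extends Coordinates p where
  ψ : (ι → ℚ_[p]) →ₗ[ℚ_[p]] (ι → ℚ_[p]) →ₗ[ℚ_[p]] ℚ_[p]
  alt : ∀ x, ψ x x = 0
  dual : ∀ x, Lat p (fun i => c i) x ↔ ∀ y, Lat p (fun _ => 0) y → D 0 (ψ x y)

/-- The pairing is integral on the lattice given by `d`. -/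
def PolarisedTate.IntegralOn (C : PolarisedTate p) (d : C.ι → ℕ) : Prop :=
  ∀ x y, Lat p (fun i => d i) x → Lat p (fun i => d i) y → D 0 (C.ψ x y)

/-- The dual of the lattice given by `d` is contained in `p⁻¹` times this lattice. -/
def PolarisedTate.DualInInv (C : PolarisedTate p) (d : C.ι → ℕ) : Prop :=
  ∀ x, (∀ y, Lat p (fun i => d i) y → D 0 (C.ψ x y)) → Lat p (fun i => d i) ((p : ℚ_[p]) • x)

/-- The group preserves the lattice given by `d`. -/
def Coordinates.Stable (C : Coordinates p) (d : C.ι → ℕ) : Prop :=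
  ∀ g x, Lat p (fun i => d i) x → Lat p (fun i => d i) (C.ρ g x)

/-- The exponents of the middle lattice. -/
def Coordinates.half (C : Coordinates p) : C.ι → ℕ := fun i => (C.c i + 1) / 2

theorem half_stable (C : Coordinates p) : C.Stable C.half := by
  intro g x hx j
  have h1 : C.ρ g x j = ∑ i, x i * C.ρ g (e p i) j := by
    rw [apply_eq_sum (C.ρ g) x, Finset.sum_apply]
    rfl
  rw [h1]
  refine D_sum _ _ fun i _ => ?_
  have h2 : D 0 (C.ρ g (e p i) j) := by
    have h3 := C.integral g ((p : ℚ_[p]) ^ (0 : ℤ) • e p i) (e_lat _ i 0 le_rfl)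
    rw [zpow_zero, one_smul] at h3
    exact h3 j
  have h4 : D ((C.c j : ℤ) - C.c i) (C.ρ g (e p i) j) := by
    have h3 := C.stable g ((p : ℚ_[p]) ^ (C.c i : ℤ) • e p i) (e_lat _ i _ le_rfl)
    rw [map_smul, Lat_zpow_smul] at h3
    exact h3 j
  have h5 : D (C.half i : ℤ) (x i) := hx i
  have h6 : C.half i = (C.c i + 1) / 2 := rfl
  have h7 : C.half j = (C.c j + 1) / 2 := rfl
  change D (C.half j : ℤ) _
  rcases le_total (C.c j) (C.c i) with h | h
  · exact (h5.mul h2).mono (by omega)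
  · exact (h5.mul h4).mono (by omega)

section

variable (C : PolarisedTate p)

theorem ψ_neg (x y : C.ι → ℚ_[p]) : C.ψ x y = -C.ψ y x := by
  have h1 := C.alt (x + y)
  simp only [map_add, LinearMap.add_apply, C.alt, zero_add, add_zero] at h1
  linear_combination h1

theorem ψ_e (i j : C.ι) : D (-(C.c i : ℤ)) (C.ψ (e p i) (e p j)) := by
  have h1 := (C.dual ((p : ℚ_[p]) ^ (C.c i : ℤ) • e p i)).mp (e_lat _ i _ le_rfl)
    ((p : ℚ_[p]) ^ (0 : ℤ) • e p j) (e_lat _ j 0 le_rfl)
  rw [zpow_zero, one_smul, map_smul, LinearMap.smul_apply, smul_eq_mul, D_zpow_mul] at h1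
  simpa using h1

theorem ψ_e' (i j : C.ι) : D (-(C.c j : ℤ)) (C.ψ (e p i) (e p j)) := by
  rw [ψ_neg]
  exact (ψ_e C j i).neg

theorem half_integral : C.IntegralOn C.half := by
  intro x y hx hy
  rw [apply_eq_sum (C.ψ) x, LinearMap.sum_apply]
  refine D_sum _ _ fun i _ => ?_
  rw [LinearMap.smul_apply, apply_eq_sum (C.ψ (e p i)) y, Finset.smul_sum]
  refine D_sum _ _ fun j _ => ?_
  rw [smul_eq_mul, smul_eq_mul]
  have h1 : D (C.half i : ℤ) (x i) := hx i
  have h2 : D (C.half j : ℤ) (y j) := hy j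
  have h6 : C.half i = (C.c i + 1) / 2 := rfl
  have h7 : C.half j = (C.c j + 1) / 2 := rfl
  rcases le_total (C.c i) (C.c j) with h | h
  · exact (h1.mul (h2.mul (ψ_e C i j))).mono (by omega)
  · exact (h1.mul (h2.mul (ψ_e' C i j))).mono (by omega)

/-- Every linear form is given by the pairing. -/
theorem exists_rep (f : C.ι → ℚ_[p]) : ∃ x, ∀ i, C.ψ x (e p i) = f i := by
  let Φ : (C.ι → ℚ_[p]) →ₗ[ℚ_[p]] (C.ι → ℚ_[p]) :=
    { toFun := fun x i => C.ψ x (e p i)
      map_add' := fun x y => by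
        funext i
        rw [map_add, LinearMap.add_apply]
        rfl
      map_smul' := fun a x => by
        funext i
        rw [map_smul, LinearMap.smul_apply]
        rfl }
  have hinj : Function.Injective Φ := by
    rw [← LinearMap.ker_eq_bot, LinearMap.ker_eq_bot']
    intro x hx
    have h0 : ∀ y, C.ψ x y = 0 := by
      intro y
      rw [apply_eq_sum (C.ψ x) y]
      refine Finset.sum_eq_zero fun i _ => ?_
      have h1 : C.ψ x (e p i) = 0 := congrFun hx i
      rw [h1, smul_zero]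
    funext i
    by_contra hxi
    have hxi' : x i ≠ 0 := hxi
    have h2 : ∀ k : ℤ, Lat p (fun i => (C.c i : ℤ)) ((p : ℚ_[p]) ^ k • x) := by
      intro k
      rw [C.dual]
      intro y _
      rw [map_smul, LinearMap.smul_apply, h0, smul_zero]
      exact D_zero _
    have h3 := h2 (-(x i).valuation - 1) i
    change D _ ((p : ℚ_[p]) ^ (-(x i).valuation - 1) * x i) at h3
    rw [D_zpow_mul, D_iff hxi'] at h3
    dsimp only at h3
    omega
  obtain ⟨x, hx⟩ := (LinearMap.injective_iff_surjective.mp hinj) f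
  exact ⟨x, fun i => congrFun hx i⟩

theorem ψ_eq_sum (x y : C.ι → ℚ_[p]) : C.ψ x y = ∑ i, y i * C.ψ x (e p i) := by
  rw [apply_eq_sum (C.ψ x) y]
  rfl

/-- The dual of `T` is the lattice of rows with integral coordinates. -/
theorem mem_of_dual (z : C.ι → ℚ_[p]) (h : ∀ t, Lat p (fun i => (C.c i : ℤ)) t → D 0 (C.ψ z t)) :
    Lat p (fun _ => 0) z := by
  classical
  intro j
  obtain ⟨t, ht⟩ := exists_rep C (fun i => if i = j then 1 else 0)
  have h1 : ∀ y, C.ψ t y = y j := by
    intro y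
    rw [ψ_eq_sum]
    simp [ht]
  have h2 : Lat p (fun i => (C.c i : ℤ)) t := by
    rw [C.dual]
    intro y hy
    rw [h1]
    exact hy j
  have h3 := h t h2
  rw [ψ_neg, h1] at h3
  simpa using h3.neg

theorem half_dual : C.DualInInv C.half := by
  classical
  intro x hx
  have hf : ∀ i, D (-(C.half i : ℤ)) (C.ψ x (e p i)) := by
    intro i
    have h1 := hx ((p : ℚ_[p]) ^ (C.half i : ℤ) • e p i) (e_lat _ i _ le_rfl)
    rw [map_smul, smul_eq_mul, D_zpow_mul] at h1
    simpa using h1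
  have key : ∀ j, D ((C.c j / 2 : ℕ) : ℤ) (x j) := by
    intro j
    obtain ⟨x', hx'⟩ := exists_rep C
      (fun i => if C.half i ≤ C.c j / 2 then C.ψ x (e p i) else 0)
    have h1 : Lat p (fun i => (C.c i : ℤ)) ((p : ℚ_[p]) ^ ((C.c j / 2 : ℕ) : ℤ) • x') := by
      rw [C.dual]
      intro y hy
      rw [map_smul, LinearMap.smul_apply, smul_eq_mul, D_zpow_mul, ψ_eq_sum]
      refine D_sum _ _ fun i _ => ?_
      rw [hx']
      split_ifs with h
      · have h2 : D 0 (y i) := hy i
        exact (h2.mul (hf i)).mono (by omega)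
      · rw [mul_zero]
        exact D_zero _
    have h2 : Lat p (fun _ => 0) ((p : ℚ_[p]) ^ (-((C.c j / 2 : ℕ) : ℤ)) • (x - x')) := by
      refine mem_of_dual C _ fun t ht => ?_
      rw [map_smul, LinearMap.smul_apply, smul_eq_mul, D_zpow_mul, ψ_eq_sum]
      refine D_sum _ _ fun i _ => ?_
      rw [map_sub, LinearMap.sub_apply, hx']
      have h3 : D (C.c i : ℤ) (t i) := ht i
      have h6 : C.half i = (C.c i + 1) / 2 := rfl
      split_ifs with h
      · rw [sub_self, mul_zero]
        exact D_zero _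
      · rw [sub_zero]
        exact (h3.mul (hf i)).mono (by omega)
    rw [Lat_zpow_smul] at h1 h2
    have h3 : D ((C.c j / 2 : ℕ) : ℤ) (x' j) := (h1 j).mono (by dsimp only; omega)
    have h4 : D ((C.c j / 2 : ℕ) : ℤ) (x j - x' j) := (h2 j).mono (by dsimp only; omega)
    have h5 := h3.add h4
    rwa [add_sub_cancel] at h5
  intro j
  have h1 : ((p : ℚ_[p]) • x) j = (p : ℚ_[p]) ^ (1 : ℤ) * x j := by
    rw [zpow_one]
    rfl
  rw [h1, D_zpow_mul]
  have h6 : C.half j = (C.c j + 1) / 2 := rfl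
  exact (key j).mono (by dsimp only; omega)

end

end Pool.Agent.X300.UB
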