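import Pool.Agent.X300.UB.Comb

/-!
# Fixed vectors modulo the middle lattice
-/

namespace Pool.Agent.X300.UB

section D

variable {p : ℕ} [Fact p.Prime]

/-- `x` is divisible by `p ^ k` in the `p`-adic integers. -/
def D (k : ℤ) (x : ℚ_[p]) : Prop := ‖x‖ ≤ (p : ℝ) ^ (-k)

theorem one_lt : (1 : ℝ) < p := by exact_mod_cast (Fact.out : p.Prime).one_lt

theorem D_zero (k : ℤ) : D k (0 : ℚ_[p]) := by
  unfold D
  rw [norm_zero]
  exact zpow_nonneg (by positivity) _

theorem D.mono {k l : ℤ} {x : ℚ_[p]} (h : D k x) (hl : l ≤ k) : D l x :=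
  h.trans (zpow_le_zpow_right₀ one_lt.le (neg_le_neg hl))

theorem D.add {k : ℤ} {x y : ℚ_[p]} (hx : D k x) (hy : D k y) : D k (x + y) :=
  (Padic.nonarchimedean x y).trans (max_le hx hy)

theorem D.neg {k : ℤ} {x : ℚ_[p]} (hx : D k x) : D k (-x) := by
  unfold D
  rw [norm_neg]
  exact hx

theorem D.sub {k : ℤ} {x y : ℚ_[p]} (hx : D k x) (hy : D k y) : D k (x - y) := by
  rw [sub_eq_add_neg]
  exact hx.add hy.neg

theorem D_zpow_mul (k l : ℤ) (x : ℚ_[p]) : D k ((p : ℚ_[p]) ^ l * x) ↔ D (k - l) x := by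
  unfold D
  have hp : (0 : ℝ) < p := zero_lt_one.trans one_lt
  rw [norm_mul, norm_zpow, Padic.norm_p, inv_zpow', neg_sub, sub_eq_add_neg,
    zpow_add₀ hp.ne', zpow_neg (p : ℝ) l, mul_comm, ← div_eq_mul_inv,
    div_le_iff₀ (zpow_pos hp l), mul_comm]

theorem D_iff {x : ℚ_[p]} (hx : x ≠ 0) (k : ℤ) : D k x ↔ k ≤ x.valuation := by
  unfold D
  rw [Padic.norm_eq_zpow_neg_valuation hx, zpow_le_zpow_iff_right₀ one_lt]
  exact neg_le_neg_iff

end D

/-- The vectors whose `i`-th coordinate is divisible by `p ^ (c i)`. -/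
def Lat (p : ℕ) [Fact p.Prime] {ι : Type} (c : ι → ℤ) (x : ι → ℚ_[p]) : Prop := ∀ i, D (c i) (x i)

/-- A representation of a group `G` on the vector space of rows over the `p`-adic numbers which
preserves the rows with integral coordinates, and those whose `i`-th coordinate is divisible by
`p ^ (c i)`. -/
structure Coordinates (p : ℕ) [Fact p.Prime] where
  ι : Type
  [fin : Fintype ι]
  G : Type
  [grp : Group G]
  ρ : G →* ((ι → ℚ_[p]) →ₗ[ℚ_[p]] (ι → ℚ_[p]))
  c : ι → ℕ
  integral : ∀ g x, Lat p (fun _ => 0) x → Lat p (fun _ => 0) (ρ g x)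
  stable : ∀ g x, Lat p (fun i => c i) x → Lat p (fun i => c i) (ρ g x)

attribute [instance] Coordinates.fin Coordinates.grp

/-- There is a vector of exact order `p ^ m` modulo the lattice given by `d`, which is fixed by the
group modulo this lattice. -/
def HasPoint {p : ℕ} [Fact p.Prime] (C : Coordinates p) (d : C.ι → ℕ) (m : ℕ) : Prop :=
  ∃ v : C.ι → ℚ_[p], (∀ g, Lat p (fun i => d i) (C.ρ g v - v)) ∧
    Lat p (fun i => d i) ((p : ℚ_[p]) ^ m • v) ∧
    ∀ k < m, ¬ Lat p (fun i => d i) ((p : ℚ_[p]) ^ k • v)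

variable {p : ℕ} [Fact p.Prime]

theorem Lat.add {ι : Type} {c : ι → ℤ} {x y : ι → ℚ_[p]} (hx : Lat p c x) (hy : Lat p c y) :
    Lat p c (x + y) := fun i => (hx i).add (hy i)

theorem Lat.sub {ι : Type} {c : ι → ℤ} {x y : ι → ℚ_[p]} (hx : Lat p c x) (hy : Lat p c y) :
    Lat p c (x - y) := fun i => (hx i).sub (hy i)

theorem Lat.mono {ι : Type} {c d : ι → ℤ} {x : ι → ℚ_[p]} (hx : Lat p c x) (h : ∀ i, d i ≤ c i) :
    Lat p d x := fun i => (hx i).mono (h i)

theorem Lat_zpow_smul {ι : Type} (c : ι → ℤ) (l : ℤ) (x : ι → ℚ_[p]) :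
    Lat p c ((p : ℚ_[p]) ^ l • x) ↔ Lat p (fun i => c i - l) x :=
  forall_congr' fun i => D_zpow_mul (c i) l (x i)

/-- The group preserves all lattices with constant exponents. -/
theorem Coordinates.const (C : Coordinates p) (k : ℤ) (g : C.G) (x : C.ι → ℚ_[p])
    (hx : Lat p (fun _ => k) x) : Lat p (fun _ => k) (C.ρ g x) := by
  have hp : (p : ℚ_[p]) ≠ 0 := by exact_mod_cast (Fact.out : p.Prime).ne_zero
  have h1 : Lat p (fun _ => 0) ((p : ℚ_[p]) ^ (-k) • x) := by
    rw [Lat_zpow_smul]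
    simpa using hx
  have h2 := C.integral g _ h1
  rw [map_smul, Lat_zpow_smul] at h2
  simpa using h2

/-- The main lemma: a fixed vector of order `p ^ m` modulo the lattice given by `c` yields one of
order `p ^ δ` modulo the middle lattice, which is given by the numbers `c / 2`, rounded up. -/
theorem middle (C : Coordinates p) (m δ : ℕ) (hδ : Fintype.card C.ι * δ < m)
    (h : HasPoint C C.c m) : HasPoint C (fun i => (C.c i + 1) / 2) δ := by
  classical
  have hp : (p : ℚ_[p]) ≠ 0 := by exact_mod_cast (Fact.out : p.Prime).ne_zero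
  obtain ⟨v, hv, -, hvm⟩ := h
  let w : C.ι → ℤ := fun i => if v i = 0 then C.c i else (v i).valuation
  have hw : ∃ i, w i + (m : ℤ) - 1 < C.c i := by
    have h1 := hvm (m - 1) (by omega)
    rw [← zpow_natCast, Lat_zpow_smul] at h1
    unfold Lat at h1
    push Not at h1
    obtain ⟨i, hi⟩ := h1
    refine ⟨i, ?_⟩
    have h0 : v i ≠ 0 := fun h0 => hi (by rw [h0]; exact D_zero _)
    rw [D_iff h0] at hi
    have h2 : w i = (v i).valuation := if_neg h0
    omega
  obtain ⟨j, hjm, a, ⟨i₁, hi₁, ha⟩, hmin, hgood⟩ := exists_good (fun i => (C.c i : ℤ))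
    (fun i => (((C.c i + 1) / 2 : ℕ) : ℤ)) (fun i => ((C.c i / 2 : ℕ) : ℤ)) w m δ hδ hw
  -- the part of `p ^ j v` outside of the lattice
  let u : C.ι → ℚ_[p] := fun i => if w i + j < C.c i then (p : ℚ_[p]) ^ j * v i else 0
  have hu0 : ∀ i, w i + j < C.c i → v i ≠ 0 ∧ w i = (v i).valuation := by
    intro i hi
    by_cases h0 : v i = 0
    · have h1 : w i = C.c i := if_pos h0
      omega
    · exact ⟨h0, if_neg h0⟩
  have ht : Lat p (fun i => (C.c i : ℤ)) ((p : ℚ_[p]) ^ j • v - u) := by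
    intro i
    by_cases hi : w i + j < C.c i
    · have h1 : ((p : ℚ_[p]) ^ j • v - u) i = 0 := by
        simp only [Pi.sub_apply, Pi.smul_apply, smul_eq_mul, u, if_pos hi, sub_self]
      rw [h1]
      exact D_zero _
    · have h1 : ((p : ℚ_[p]) ^ j • v - u) i = (p : ℚ_[p]) ^ (j : ℤ) * v i := by
        simp only [Pi.sub_apply, Pi.smul_apply, smul_eq_mul, u, if_neg hi, sub_zero, zpow_natCast]
      rw [h1, D_zpow_mul]
      by_cases h0 : v i = 0
      · rw [h0]
        exact D_zero _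
      · have h2 : w i = (v i).valuation := if_neg h0
        rw [D_iff h0]
        dsimp only
        omega
  have hu : ∀ g, Lat p (fun i => (C.c i : ℤ)) (C.ρ g u - u) := by
    intro g
    have h1 : C.ρ g u - u = (p : ℚ_[p]) ^ (j : ℤ) • (C.ρ g v - v) -
        (C.ρ g ((p : ℚ_[p]) ^ j • v - u) - ((p : ℚ_[p]) ^ j • v - u)) := by
      rw [map_sub, map_smul, zpow_natCast, smul_sub]
      abel
    rw [h1]
    refine Lat.sub ?_ (Lat.sub (C.stable g _ ht) ht)
    rw [Lat_zpow_smul]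
    exact (hv g).mono fun i => by omega
  -- the primitive vector
  let y : C.ι → ℚ_[p] := (p : ℚ_[p]) ^ (-a) • u
  have hyval : ∀ i, w i + j < C.c i → ∀ k : ℤ, D k (y i) ↔ k ≤ w i + j - a := by
    intro i hi k
    obtain ⟨h0, h1⟩ := hu0 i hi
    have h2 : y i = (p : ℚ_[p]) ^ (-a) * ((p : ℚ_[p]) ^ (j : ℤ) * v i) := by
      simp only [y, u, Pi.smul_apply, smul_eq_mul, if_pos hi, zpow_natCast]
    rw [h2, D_zpow_mul, D_zpow_mul, D_iff h0]
    omega
  have hy0 : ∀ i, ¬ w i + j < C.c i → y i = 0 := by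
    intro i hi
    simp only [y, u, Pi.smul_apply, smul_eq_mul, if_neg hi, mul_zero]
  have hyL : Lat p (fun i => (((C.c i + 1) / 2 : ℕ) : ℤ)) y := by
    intro i
    by_cases hi : w i + j < C.c i
    · rw [hyval i hi]
      have := hmin i hi
      dsimp only at this ⊢
      omega
    · rw [hy0 i hi]
      exact D_zero _
  have hyc : Lat p (fun _ => a + δ) y := by
    intro i
    by_cases hi : w i + j < C.c i
    · have h1 := hmin i hi
      have h2 := hgood i
      refine (hyL i).mono ?_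
      change a + δ ≤ (((C.c i + 1) / 2 : ℕ) : ℤ)
      rcases h2 with h2 | h2 <;> omega
    · rw [hy0 i hi]
      exact D_zero _
  have hyfix : ∀ g, Lat p (fun i => (((C.c i + 1) / 2 : ℕ) : ℤ) + δ) (C.ρ g y - y) := by
    intro g i
    rcases hgood i with h1 | h1
    · have h2 : Lat p (fun _ => a + δ) (C.ρ g y - y) := (C.const _ g y hyc).sub hyc
      refine (h2 i).mono ?_
      change (((C.c i + 1) / 2 : ℕ) : ℤ) + δ ≤ a + δ
      omega
    · have h2 : C.ρ g y - y = (p : ℚ_[p]) ^ (-a) • (C.ρ g u - u) := by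
        simp only [y]
        rw [map_smul, smul_sub]
      rw [h2]
      have h4 : D ((((C.c i + 1) / 2 : ℕ) : ℤ) + δ - -a) ((C.ρ g u - u) i) := by
        refine (hu g i).mono ?_
        change (((C.c i + 1) / 2 : ℕ) : ℤ) + δ - -a ≤ (C.c i : ℤ)
        omega
      exact (D_zpow_mul _ (-a) _).mpr h4
  refine ⟨(p : ℚ_[p]) ^ (-(δ : ℤ)) • y, fun g => ?_, ?_, fun k hk hcon => ?_⟩
  · rw [map_smul, ← smul_sub, Lat_zpow_smul]
    refine (hyfix g).mono fun i => ?_
    dsimp only
    omega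
  · rw [smul_smul, ← zpow_natCast, ← zpow_add₀ hp, add_neg_cancel, zpow_zero, one_smul]
    exact hyL
  · rw [smul_smul, ← zpow_natCast, ← zpow_add₀ hp, Lat_zpow_smul] at hcon
    have h1 := hcon i₁
    rw [hyval i₁ hi₁] at h1
    dsimp only at h1 ha
    omega

end Pool.Agent.X300.UB
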